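import Pool.Agent.Helper91.PG.NForm

open scoped Manifold ContDiff Topology
open Set

noncomputable section

namespace H91PG

set_option linter.unusedSectionVars false

section curve

variable {m d : ℕ} {X Y : Type*} [TopologicalSpace X] [ChartedSpace (Eu m) X]
  [IsManifold 𝓘(ℝ, Eu m) ∞ X]
  [TopologicalSpace Y] [ChartedSpace (Eu d) Y] [IsManifold 𝓘(ℝ, Eu d) ∞ Y]

theorem nform_of_submersion {q : X → Y} (hq : ContMDiff 𝓘(ℝ, Eu m) 𝓘(ℝ, Eu d) ∞ q) (g : X)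
    (hs : Function.Surjective (mfderiv 𝓘(ℝ, Eu m) 𝓘(ℝ, Eu d) q g)) :
    Nonempty (NForm (m := m) (rd (d := d) (q g) q) (q ⁻¹' src' (d := d) (q g)) g) :=
  exists_nform ((isOpen_src' _).preimage hq.continuous) (mem_src' _) (rd_smooth _ hq)
    (rd_surj _ hq (mem_src' _) hs)

theorem exists_curve {q : X → Y} (hq : ContMDiff 𝓘(ℝ, Eu m) 𝓘(ℝ, Eu d) ∞ q) (g : X)
    (hs : Function.Surjective (mfderiv 𝓘(ℝ, Eu m) 𝓘(ℝ, Eu d) q g))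
    (w : Eu m) (hw : (mfderiv 𝓘(ℝ, Eu m) 𝓘(ℝ, Eu d) q g) w = 0) :
    ∃ (J : Set ℝ) (c : ℝ → X), IsOpen J ∧ (0 : ℝ) ∈ J ∧ Sm m c J ∧ c 0 = g ∧
      (∀ b ∈ J, q (c b) = q g) ∧ ((mfderiv 𝓘(ℝ, ℝ) 𝓘(ℝ, Eu m) c 0 (1 : ℝ) : Eu m) = w) := by
  obtain ⟨N⟩ := nform_of_submersion hq g hs
  set Φ := rd (d := d) (q g) q with hΦ
  let f : N.F := mfderiv 𝓘(ℝ, Eu m) 𝓘(ℝ, N.F) N.κ g w
  let h : ℝ → Eu d × N.F := fun b => (Φ g, b • f)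
  have hh : ContDiff ℝ ∞ h := contDiff_const.prodMk (contDiff_id.smul contDiff_const)
  let J : Set ℝ := h ⁻¹' N.D
  have hJ : IsOpen J := N.hD.preimage hh.continuous
  have h0 : h 0 = (Φ g, 0) := by simp [h]
  have h0J : (0 : ℝ) ∈ J := by
    change h 0 ∈ N.D
    rw [h0]
    exact ⟨N.g₀U, N.zero_mem⟩
  have hc : Sm m (fun b => N.Ξ (h b)) J := N.smooth.comp_space hh.contDiffOn (fun b hb => hb)
  refine ⟨J, fun b => N.Ξ (h b), hJ, h0J, hc, ?_, ?_, ?_⟩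
  · change N.Ξ (h 0) = g
    rw [h0]; exact N.Ξ₀
  · intro b hb
    have hW : N.Ξ (h b) ∈ N.W := N.mapW _ hb.1 _ hb.2
    apply chart_inj (d := d) (q g) (N.WO hW) (mem_src' _)
    exact N.right1 _ hb.1 _ hb.2
  · have h1 := mfderiv_comp (I := 𝓘(ℝ, ℝ)) (I' := 𝓘(ℝ, Eu d × N.F)) (I'' := 𝓘(ℝ, Eu m))
      (0 : ℝ) (g := N.Ξ) (f := h) (N.mdiffΞ h0J)
      (hh.differentiable (by simp)).differentiableAt.mdifferentiableAt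
    rw [mfderiv_eq_fderiv (f := h)] at h1
    have h2 : HasFDerivAt h ((0 : ℝ →L[ℝ] Eu d).prod
        ((ContinuousLinearMap.id ℝ ℝ).smulRight f)) 0 := by
      exact (hasFDerivAt_const _ _).prodMk ((hasFDerivAt_id (0 : ℝ)).smul_const f)
    rw [h2.fderiv] at h1
    have h3 := DFunLike.congr_fun h1 (1 : ℝ)
    have h4 : ((((0 : ℝ →L[ℝ] Eu d).prod
        ((ContinuousLinearMap.id ℝ ℝ).smulRight f)) (1 : ℝ)) : Eu d × N.F) = (0, f) := by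
      simp
    have h5 := N.deriv_left N.g₀W w
    have h6 : (mfderiv 𝓘(ℝ, Eu m) 𝓘(ℝ, Eu d) Φ g) w = 0 :=
      (rd_ker (q g) hq (mem_src' _) w).mpr hw
    have h7 : ((((mfderiv 𝓘(ℝ, Eu m) 𝓘(ℝ, Eu d) Φ g) w,
      (mfderiv 𝓘(ℝ, Eu m) 𝓘(ℝ, N.F) N.κ g) w)) : Eu d × N.F) = (0, f) := by
      rw [h6]; rfl
    rw [h7, N.κ₀] at h5
    have h8 : (mfderiv 𝓘(ℝ, Eu d × N.F) 𝓘(ℝ, Eu m) N.Ξ (h 0)) ((0, f) : Eu d × N.F) = w := by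
      rw [h0]; exact h5
    rw [← h8]
    refine Eq.trans h3 ?_
    exact congrArg (fun z : Eu d × N.F => (mfderiv 𝓘(ℝ, Eu d × N.F) 𝓘(ℝ, Eu m) N.Ξ (h 0)) z) h4

end curve

section anchor

variable {n m : ℕ} {M G : Type*} [TopologicalSpace M] [ChartedSpace (Eu n) M]
  [TopologicalSpace G] [ChartedSpace (Eu m) G] [IsManifold 𝓘(ℝ, Eu n) ∞ M]
  [IsManifold 𝓘(ℝ, Eu m) ∞ G] (𝒢 : LieGroupoid n m M G)

/-- derivative of the source map -/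
def dsrc (g : G) : Eu m →L[ℝ] Eu n := mfderiv 𝓘(ℝ, Eu m) 𝓘(ℝ, Eu n) 𝒢.src g

/-- derivative of the target map -/
def dtgt (g : G) : Eu m →L[ℝ] Eu n := mfderiv 𝓘(ℝ, Eu m) 𝓘(ℝ, Eu n) 𝒢.tgt g

/-- the image of the anchor -/
def anch (g : G) : Submodule ℝ (Eu n) :=
  Submodule.map (dtgt 𝒢 g).toLinearMap (LinearMap.ker (dsrc 𝒢 g).toLinearMap)

lemma mem_anch {g : G} {a : Eu n} : a ∈ anch 𝒢 g ↔
    ∃ w : Eu m, (mfderiv 𝓘(ℝ, Eu m) 𝓘(ℝ, Eu n) 𝒢.src g) w = 0 ∧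
      ((mfderiv 𝓘(ℝ, Eu m) 𝓘(ℝ, Eu n) 𝒢.tgt g) w : Eu n) = a := by
  rw [anch, Submodule.mem_map]
  rfl

/-- velocities of target curves of curves in the source fibre -/
def vel (g : G) : Set (Eu n) :=
  {a | ∃ (J : Set ℝ) (c : ℝ → G), IsOpen J ∧ (0 : ℝ) ∈ J ∧ Sm m c J ∧ c 0 = g ∧
    (∀ b ∈ J, 𝒢.src (c b) = 𝒢.src g) ∧
    ((mfderiv 𝓘(ℝ, ℝ) 𝓘(ℝ, Eu n) (fun b => 𝒢.tgt (c b)) 0 (1 : ℝ) : Eu n) = a)}

lemma vel_eq (g : G) : vel 𝒢 g = anch 𝒢 g := by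
  ext a
  rw [SetLike.mem_coe, mem_anch]
  constructor
  · rintro ⟨J, c, hJ, h0, hc, hc0, hs, ha⟩
    subst hc0
    have hcd := hc.mdiff hJ h0
    refine ⟨mfderiv 𝓘(ℝ, ℝ) 𝓘(ℝ, Eu m) c 0 (1 : ℝ), ?_, ?_⟩
    · have h1 := mfderiv_comp (I := 𝓘(ℝ, ℝ)) (I' := 𝓘(ℝ, Eu m)) (I'' := 𝓘(ℝ, Eu n)) (0 : ℝ)
        (g := 𝒢.src) (f := c) (𝒢.smooth_src.mdifferentiableAt (by simp)) hcd
      have h2 : (𝒢.src ∘ c) =ᶠ[𝓝 (0 : ℝ)] fun _ => 𝒢.src (c 0) := by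
        filter_upwards [hJ.mem_nhds h0] with b hb
        exact hs b hb
      rw [h2.mfderiv_eq, mfderiv_const] at h1
      exact (DFunLike.congr_fun h1 (1 : ℝ)).symm
    · have h1 := mfderiv_comp (I := 𝓘(ℝ, ℝ)) (I' := 𝓘(ℝ, Eu m)) (I'' := 𝓘(ℝ, Eu n)) (0 : ℝ)
        (g := 𝒢.tgt) (f := c) (𝒢.smooth_tgt.mdifferentiableAt (by simp)) hcd
      rw [← ha]
      exact (DFunLike.congr_fun h1 (1 : ℝ)).symm
  · rintro ⟨w, hw, ha⟩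
    obtain ⟨J, c, hJ, h0, hc, hc0, hs, hcw⟩ :=
      exists_curve 𝒢.smooth_src g (𝒢.submersion_src g) w hw
    refine ⟨J, c, hJ, h0, hc, hc0, hs, ?_⟩
    subst hc0
    have h1 := mfderiv_comp (I := 𝓘(ℝ, ℝ)) (I' := 𝓘(ℝ, Eu m)) (I'' := 𝓘(ℝ, Eu n)) (0 : ℝ)
      (g := 𝒢.tgt) (f := c) (𝒢.smooth_tgt.mdifferentiableAt (by simp)) (hc.mdiff hJ h0)
    have h2 := DFunLike.congr_fun h1 (1 : ℝ)
    refine Eq.trans h2 ?_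
    rw [← ha, ← hcw]
    rfl

lemma vel_mul_right {g h : G} (hgh : 𝒢.src g = 𝒢.tgt h) :
    vel 𝒢 g ⊆ vel 𝒢 (𝒢.mul g h) := by
  rintro a ⟨J, c, hJ, h0, hc, hc0, hs, ha⟩
  have hcomp : ∀ b ∈ J, 𝒢.src (c b) = 𝒢.tgt h := fun b hb => (hs b hb).trans hgh
  refine ⟨J, fun b => 𝒢.mul (c b) h, hJ, h0,
    𝒢.smooth_mul ℝ J c (fun _ => h) hJ hc (sm_const h J) hcomp, by simp [hc0], ?_, ?_⟩
  · intro b hb
    rw [𝒢.src_mul _ _ (hcomp b hb), 𝒢.src_mul _ _ hgh]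
  · rw [← ha]
    have h2 : (fun b => 𝒢.tgt (𝒢.mul (c b) h)) =ᶠ[𝓝 (0 : ℝ)] fun b => 𝒢.tgt (c b) := by
      filter_upwards [hJ.mem_nhds h0] with b hb
      exact 𝒢.tgt_mul _ _ (hcomp b hb)
    rw [h2.mfderiv_eq]
    rfl

lemma anch_eq_one (g : G) : anch 𝒢 g = anch 𝒢 (𝒢.one (𝒢.tgt g)) := by
  apply SetLike.coe_injective
  rw [← vel_eq, ← vel_eq]
  apply Subset.antisymm
  · have := vel_mul_right 𝒢 (g := g) (h := 𝒢.inv g) (𝒢.tgt_inv g).symm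
    rwa [𝒢.mul_inv] at this
  · have := vel_mul_right 𝒢 (g := 𝒢.one (𝒢.tgt g)) (h := g) (𝒢.src_one _)
    rwa [𝒢.one_mul] at this

/-- rank of the anchor -/
def rk (x : M) : ℕ := Module.finrank ℝ (anch 𝒢 (𝒢.one x))

lemma finrank_anch (g : G) : Module.finrank ℝ (anch 𝒢 g) = rk 𝒢 (𝒢.tgt g) := by
  rw [rk, ← anch_eq_one]

end anchor

end H91PG

end
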