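import Pool.Agent.Helper91.PG.Defs

open scoped Manifold ContDiff Topology commutatorElement
open Set

noncomputable section

namespace H91PG

section sm

variable {m : ℕ} {X : Type*} [TopologicalSpace X] [ChartedSpace (Eu m) X]
variable {E : Type*} [NormedAddCommGroup E] [NormedSpace ℝ E]

lemma Sm.mdiff {f : E → X} {Z : Set E} (hf : Sm m f Z) (hZ : IsOpen Z) {z : E} (hz : z ∈ Z) :
    MDifferentiableAt 𝓘(ℝ, E) 𝓘(ℝ, Eu m) f z :=
  (hf.contMDiffAt (hZ.mem_nhds hz)).mdifferentiableAt (by simp)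

lemma Sm.congr' {f g : E → X} {Z : Set E} (hf : Sm m f Z) (h : ∀ z ∈ Z, g z = f z) :
    Sm m g Z := hf.congr h

lemma sm_of_locally {f : E → X} {Z : Set E}
    (h : ∀ z ∈ Z, ∃ Z' : Set E, IsOpen Z' ∧ z ∈ Z' ∧ Sm m f Z') : Sm m f Z := by
  intro z hz
  obtain ⟨Z', hZ', hzZ', hf⟩ := h z hz
  exact (hf.contMDiffAt (hZ'.mem_nhds hzZ')).contMDiffWithinAt

lemma sm_const (x : X) (Z : Set E) : Sm m (fun _ : E => x) Z := contMDiffOn_const

lemma Sm.comp_space {F : Type*} [NormedAddCommGroup F] [NormedSpace ℝ F] {f : E → X} {Z : Set E}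
    (hf : Sm m f Z) {h : F → E} {Y : Set F} (hh : ContDiffOn ℝ ∞ h Y) (hm : MapsTo h Y Z) :
    Sm m (fun y => f (h y)) Y :=
  hf.comp (contMDiffOn_iff_contDiffOn.mpr hh) hm

lemma comp_sm {k : ℕ} {Y : Type*} [TopologicalSpace Y] [ChartedSpace (Eu k) Y] {s : X → Y}
    (hs : ContMDiff 𝓘(ℝ, Eu m) 𝓘(ℝ, Eu k) ∞ s) {f : E → X} {Z : Set E} (hf : Sm m f Z) :
    Sm k (fun z => s (f z)) Z :=
  hs.comp_contMDiffOn hf

lemma comp_smOn {k : ℕ} {Y : Type*} [TopologicalSpace Y] [ChartedSpace (Eu k) Y] {s : X → Y}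
    {W : Set X} (hs : ContMDiffOn 𝓘(ℝ, Eu m) 𝓘(ℝ, Eu k) ∞ s W) {f : E → X} {Z : Set E}
    (hf : Sm m f Z) (hm : MapsTo f Z W) : Sm k (fun z => s (f z)) Z :=
  hs.comp hf hm

end sm

section pull

variable {m : ℕ} {X : Type*} [TopologicalSpace X] [ChartedSpace (Eu m) X]
variable {Ω : FormField m X}
variable {E : Type*} [NormedAddCommGroup E] [NormedSpace ℝ E]

lemma pull_congr {f g : E → X} {z : E} (h : f =ᶠ[𝓝 z] g) (u v : E) :
    pull Ω f z u v = pull Ω g z u v := by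
  unfold pull
  rw [h.mfderiv_eq]
  have hz : f z = g z := h.self_of_nhds
  have key : ∀ (x y : X) (_ : x = y) (a b : Eu m), Ω x a b = Ω y a b := by
    rintro x y rfl a b; rfl
  exact key _ _ hz _ _

lemma pull_congr_on {f g : E → X} {Z : Set E} (hZ : IsOpen Z) (h : ∀ z ∈ Z, f z = g z) {z : E}
    (hz : z ∈ Z) (u v : E) : pull Ω f z u v = pull Ω g z u v :=
  pull_congr (Filter.eventuallyEq_of_mem (hZ.mem_nhds hz) h) u v

lemma pull_comp {F : Type*} [NormedAddCommGroup F] [NormedSpace ℝ F] {f : E → X} {h : F → E}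
    {y : F} (hf : MDifferentiableAt 𝓘(ℝ, E) 𝓘(ℝ, Eu m) f (h y)) (hh : DifferentiableAt ℝ h y)
    (u v : F) :
    pull Ω (fun w => f (h w)) y u v = pull Ω f (h y) (fderiv ℝ h y u) (fderiv ℝ h y v) := by
  unfold pull
  have : mfderiv 𝓘(ℝ, F) 𝓘(ℝ, Eu m) (fun w => f (h w)) y =
      (mfderiv 𝓘(ℝ, E) 𝓘(ℝ, Eu m) f (h y)).comp (fderiv ℝ h y) := by
    have := mfderiv_comp (I := 𝓘(ℝ, F)) (I' := 𝓘(ℝ, E)) (I'' := 𝓘(ℝ, Eu m)) y hf
      hh.mdifferentiableAt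
    rw [mfderiv_eq_fderiv] at this
    exact this
  rw [this]
  rfl

lemma IsSymplectic.antisymm (hΩ : IsSymplectic Ω) (x : X) (u v : TangentSpace 𝓘(ℝ, Eu m) x) :
    Ω x u v = - Ω x v u := by
  have h := hΩ.alt x (u + v)
  have h1 := hΩ.alt x u
  have h2 := hΩ.alt x v
  simp only [map_add, add_apply] at h
  linarith

end pull

section mult

variable {n m : ℕ} {M G : Type*} [TopologicalSpace M] [ChartedSpace (Eu n) M]
  [TopologicalSpace G] [ChartedSpace (Eu m) G] {𝒢 : LieGroupoid n m M G} {Ω : FormField m G}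
variable {E : Type} [NormedAddCommGroup E] [NormedSpace ℝ E] [FiniteDimensional ℝ E]

lemma pull_one (hm : IsMultiplicative 𝒢 Ω) {Z : Set E} (hZ : IsOpen Z) {y : E → M}
    (hy : Sm n y Z) {z : E} (hz : z ∈ Z) (u v : E) :
    pull Ω (fun w => 𝒢.one (y w)) z u v = 0 := by
  have h1 : Sm m (fun w => 𝒢.one (y w)) Z := comp_sm 𝒢.smooth_one hy
  have h2 := hm E Z _ _ hZ h1 h1 (fun w _ => by rw [𝒢.src_one, 𝒢.tgt_one]) z hz u v
  have h3 : (fun w => 𝒢.mul (𝒢.one (y w)) (𝒢.one (y w))) = fun w => 𝒢.one (y w) := by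
    funext w
    have := 𝒢.mul_one (𝒢.one (y w))
    rw [𝒢.src_one] at this
    exact this
  rw [h3] at h2
  linarith

lemma pull_inv (hm : IsMultiplicative 𝒢 Ω) {Z : Set E} (hZ : IsOpen Z) {f : E → G}
    (hf : Sm m f Z) {z : E} (hz : z ∈ Z) (u v : E) :
    pull Ω (fun w => 𝒢.inv (f w)) z u v = - pull Ω f z u v := by
  have h1 : Sm m (fun w => 𝒢.inv (f w)) Z := comp_sm 𝒢.smooth_inv hf
  have h2 := hm E Z _ _ hZ hf h1 (fun w _ => (𝒢.tgt_inv _).symm) z hz u v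
  have h3 : (fun w => 𝒢.mul (f w) (𝒢.inv (f w))) = fun w => 𝒢.one (𝒢.tgt (f w)) := by
    funext w; exact 𝒢.mul_inv _
  rw [h3, pull_one hm hZ (comp_sm 𝒢.smooth_tgt hf) hz] at h2
  linarith

lemma pull_mul (hm : IsMultiplicative 𝒢 Ω) {Z : Set E} (hZ : IsOpen Z) {f h : E → G}
    (hf : Sm m f Z) (hh : Sm m h Z) (hc : ∀ z ∈ Z, 𝒢.src (f z) = 𝒢.tgt (h z)) {z : E}
    (hz : z ∈ Z) (u v : E) :
    pull Ω (fun w => 𝒢.mul (f w) (h w)) z u v = pull Ω f z u v + pull Ω h z u v :=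
  hm E Z f h hZ hf hh hc z hz u v

end mult

namespace LieGroupoid

variable {n m : ℕ} {M G : Type*} [TopologicalSpace M] [ChartedSpace (Eu n) M]
  [TopologicalSpace G] [ChartedSpace (Eu m) G] (𝒢 : LieGroupoid n m M G)

@[simp] lemma iso_mul_val {x : M} (g h : 𝒢.Iso x) : (g * h).1 = 𝒢.mul g.1 h.1 := rfl
@[simp] lemma iso_inv_val {x : M} (g : 𝒢.Iso x) : (g⁻¹).1 = 𝒢.inv g.1 := rfl
@[simp] lemma iso_one_val {x : M} : (1 : 𝒢.Iso x).1 = 𝒢.one x := rfl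

/-- commutator of two (isotropy) elements -/
def comm (g h : G) : G := 𝒢.mul (𝒢.mul (𝒢.mul g h) (𝒢.inv g)) (𝒢.inv h)

lemma iso_comm_val {x : M} (g h : 𝒢.Iso x) : (⁅g, h⁆).1 = 𝒢.comm g.1 h.1 := rfl

end LieGroupoid

end H91PG

end
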