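import Mathlib

open scoped Manifold ContDiff
open Set

noncomputable section

namespace H91PG

/-- Euclidean space of dimension `k`. -/
abbrev Eu (k : ℕ) := EuclideanSpace ℝ (Fin k)

/-- `f` is smooth on the subset `Z` of a normed space, with values in a manifold modelled on
`Eu m`. -/
abbrev Sm (m : ℕ) {E : Type*} [NormedAddCommGroup E] [NormedSpace ℝ E] {X : Type*}
    [TopologicalSpace X] [ChartedSpace (Eu m) X] (f : E → X) (Z : Set E) : Prop :=
  ContMDiffOn 𝓘(ℝ, E) 𝓘(ℝ, Eu m) ∞ f Z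

/-- A Lie groupoid with arrow manifold `G` (of dimension `m`, not necessarily Hausdorff) over the
manifold `M` (of dimension `n`).  The product `mul g h` is meaningful when `src g = tgt h`. -/
structure LieGroupoid (n m : ℕ) (M G : Type*) [TopologicalSpace M] [ChartedSpace (Eu n) M]
    [TopologicalSpace G] [ChartedSpace (Eu m) G] where
  src : G → M
  tgt : G → M
  one : M → G
  inv : G → G
  mul : G → G → G
  src_one : ∀ x, src (one x) = x
  tgt_one : ∀ x, tgt (one x) = x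
  src_inv : ∀ g, src (inv g) = tgt g
  tgt_inv : ∀ g, tgt (inv g) = src g
  src_mul : ∀ g h, src g = tgt h → src (mul g h) = src h
  tgt_mul : ∀ g h, src g = tgt h → tgt (mul g h) = tgt g
  mul_assoc : ∀ g h k, src g = tgt h → src h = tgt k → mul (mul g h) k = mul g (mul h k)
  one_mul : ∀ g, mul (one (tgt g)) g = g
  mul_one : ∀ g, mul g (one (src g)) = g
  mul_inv : ∀ g, mul g (inv g) = one (tgt g)
  inv_mul : ∀ g, mul (inv g) g = one (src g)
  smooth_src : ContMDiff 𝓘(ℝ, Eu m) 𝓘(ℝ, Eu n) ∞ src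
  smooth_tgt : ContMDiff 𝓘(ℝ, Eu m) 𝓘(ℝ, Eu n) ∞ tgt
  smooth_one : ContMDiff 𝓘(ℝ, Eu n) 𝓘(ℝ, Eu m) ∞ one
  smooth_inv : ContMDiff 𝓘(ℝ, Eu m) 𝓘(ℝ, Eu m) ∞ inv
  submersion_src : ∀ g, Function.Surjective (mfderiv 𝓘(ℝ, Eu m) 𝓘(ℝ, Eu n) src g)
  smooth_mul : ∀ (E : Type) [NormedAddCommGroup E] [NormedSpace ℝ E] [FiniteDimensional ℝ E]
    (Z : Set E) (f h : E → G), IsOpen Z → Sm m f Z → Sm m h Z →
    (∀ z ∈ Z, src (f z) = tgt (h z)) → Sm m (fun z => mul (f z) (h z)) Z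

namespace LieGroupoid

variable {n m : ℕ} {M G : Type*} [TopologicalSpace M] [ChartedSpace (Eu n) M]
  [TopologicalSpace G] [ChartedSpace (Eu m) G] (𝒢 : LieGroupoid n m M G)

/-- The isotropy group at `x`. -/
def Iso (x : M) : Type _ := {g : G // 𝒢.src g = x ∧ 𝒢.tgt g = x}

instance (x : M) : Group (𝒢.Iso x) where
  mul g h := ⟨𝒢.mul g.1 h.1,
    by rw [𝒢.src_mul _ _ (g.2.1.trans h.2.2.symm)]; exact h.2.1,
    by rw [𝒢.tgt_mul _ _ (g.2.1.trans h.2.2.symm)]; exact g.2.2⟩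
  one := ⟨𝒢.one x, 𝒢.src_one x, 𝒢.tgt_one x⟩
  inv g := ⟨𝒢.inv g.1, (𝒢.src_inv _).trans g.2.2, (𝒢.tgt_inv _).trans g.2.1⟩
  mul_assoc g h k := Subtype.ext
    (𝒢.mul_assoc g.1 h.1 k.1 (g.2.1.trans h.2.2.symm) (h.2.1.trans k.2.2.symm))
  one_mul g := Subtype.ext (by
    have h := 𝒢.one_mul g.1
    rw [g.2.2] at h
    exact h)
  mul_one g := Subtype.ext (by
    have h := 𝒢.mul_one g.1
    rw [g.2.1] at h
    exact h)
  inv_mul_cancel g := Subtype.ext (by
    have h := 𝒢.inv_mul g.1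
    rw [g.2.1] at h
    exact h)

end LieGroupoid

/-- A (not yet smooth) field of bilinear forms on the manifold `X`. -/
abbrev FormField (m : ℕ) (X : Type*) [TopologicalSpace X] [ChartedSpace (Eu m) X] : Type _ :=
  ∀ x : X, TangentSpace 𝓘(ℝ, Eu m) x →L[ℝ] TangentSpace 𝓘(ℝ, Eu m) x →L[ℝ] ℝ

/-- The pull-back of `Ω` by the map `f`, at the point `z`, on the vectors `u`, `v`. -/
def pull {m : ℕ} {X : Type*} [TopologicalSpace X] [ChartedSpace (Eu m) X] (Ω : FormField m X)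
    {E : Type*} [NormedAddCommGroup E] [NormedSpace ℝ E] (f : E → X) (z u v : E) : ℝ :=
  Ω (f z) (mfderiv 𝓘(ℝ, E) 𝓘(ℝ, Eu m) f z u) (mfderiv 𝓘(ℝ, E) 𝓘(ℝ, Eu m) f z v)

/-- `Ω` is a symplectic form: alternating, nondegenerate, smooth and closed (the last two are
tested on all smooth maps from open subsets of finite-dimensional spaces, which include the
inverses of the charts). -/
structure IsSymplectic {m : ℕ} {X : Type*} [TopologicalSpace X] [ChartedSpace (Eu m) X]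
    (Ω : FormField m X) : Prop where
  alt : ∀ x u, Ω x u u = 0
  nondeg : ∀ x u, (∀ v, Ω x u v = 0) → u = 0
  smooth : ∀ (E : Type) [NormedAddCommGroup E] [NormedSpace ℝ E] [FiniteDimensional ℝ E]
    (Z : Set E) (f : E → X), IsOpen Z → Sm m f Z →
    ∀ u v, ContDiffOn ℝ ∞ (fun z => pull Ω f z u v) Z
  closed : ∀ (E : Type) [NormedAddCommGroup E] [NormedSpace ℝ E] [FiniteDimensional ℝ E]
    (Z : Set E) (f : E → X), IsOpen Z → Sm m f Z → ∀ z ∈ Z, ∀ u v w,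
    fderiv ℝ (fun y => pull Ω f y v w) z u + fderiv ℝ (fun y => pull Ω f y w u) z v
      + fderiv ℝ (fun y => pull Ω f y u v) z w = 0

/-- `Ω` is multiplicative: `m^* Ω = pr₁^* Ω + pr₂^* Ω` on composable pairs. -/
def IsMultiplicative {n m : ℕ} {M G : Type*} [TopologicalSpace M] [ChartedSpace (Eu n) M]
    [TopologicalSpace G] [ChartedSpace (Eu m) G] (𝒢 : LieGroupoid n m M G)
    (Ω : FormField m G) : Prop :=
  ∀ (E : Type) [NormedAddCommGroup E] [NormedSpace ℝ E] [FiniteDimensional ℝ E]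
    (Z : Set E) (f h : E → G), IsOpen Z → Sm m f Z → Sm m h Z →
    (∀ z ∈ Z, 𝒢.src (f z) = 𝒢.tgt (h z)) →
    ∀ z ∈ Z, ∀ u v, pull Ω (fun y => 𝒢.mul (f y) (h y)) z u v = pull Ω f z u v + pull Ω h z u v

/-- The Lie groupoid `ℋ`, with the map `q`, is the quotient of the Lie groupoid `𝒢` by the
commutator subgroups of its isotropy groups; `q` is a surjective submersion. -/
structure IsAbelianization {n m d : ℕ} {M G H : Type*} [TopologicalSpace M]
    [ChartedSpace (Eu n) M] [TopologicalSpace G] [ChartedSpace (Eu m) G] [TopologicalSpace H]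
    [ChartedSpace (Eu d) H] (𝒢 : LieGroupoid n m M G) (ℋ : LieGroupoid n d M H)
    (q : G → H) : Prop where
  smooth : ContMDiff 𝓘(ℝ, Eu m) 𝓘(ℝ, Eu d) ∞ q
  submersion : ∀ g, Function.Surjective (mfderiv 𝓘(ℝ, Eu m) 𝓘(ℝ, Eu d) q g)
  surjective : Function.Surjective q
  src_map : ∀ g, ℋ.src (q g) = 𝒢.src g
  tgt_map : ∀ g, ℋ.tgt (q g) = 𝒢.tgt g
  map_mul : ∀ g h, 𝒢.src g = 𝒢.tgt h → q (𝒢.mul g h) = ℋ.mul (q g) (q h)
  fiber : ∀ g h, q g = q h ↔ 𝒢.src g = 𝒢.src h ∧ 𝒢.tgt g = 𝒢.tgt h ∧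
    ∃ k ∈ commutator (𝒢.Iso (𝒢.tgt h)), 𝒢.mul k.1 h = g

end H91PG

end
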