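import Pool.Agent.Helper91.PG.Calc
import Pool.Agent.Helper94.MIFT

open scoped Manifold ContDiff Topology
open Set

noncomputable section

namespace H91PG

variable {m : ℕ} {X : Type*} [TopologicalSpace X] [ChartedSpace (Eu m) X]
  [IsManifold 𝓘(ℝ, Eu m) ∞ X]
variable {V : Type} [NormedAddCommGroup V] [NormedSpace ℝ V] [FiniteDimensional ℝ V]

/-- Normal form of a submersion to a vector space. -/
theorem exists_nf {Φ : X → V} {O : Set X} (hO : IsOpen O) {g₀ : X} (hg : g₀ ∈ O)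
    (hΦ : ContMDiffOn 𝓘(ℝ, Eu m) 𝓘(ℝ, V) ∞ Φ O)
    (hs : Function.Surjective (mfderiv 𝓘(ℝ, Eu m) 𝓘(ℝ, V) Φ g₀)) :
    ∃ (F : Submodule ℝ (Eu m)) (κ : X → F) (Ξ : V × F → X) (W : Set X) (U : Set V) (ε : ℝ),
      IsOpen W ∧ g₀ ∈ W ∧ W ⊆ O ∧ IsOpen U ∧ Φ g₀ ∈ U ∧ 0 < ε ∧ κ g₀ = 0 ∧
      ContMDiffOn 𝓘(ℝ, Eu m) 𝓘(ℝ, F) ∞ κ W ∧
      Sm m Ξ (U ×ˢ Metric.ball (0 : F) ε) ∧
      (∀ g ∈ W, Φ g ∈ U ∧ κ g ∈ Metric.ball (0 : F) ε ∧ Ξ (Φ g, κ g) = g) ∧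
      (∀ v ∈ U, ∀ b ∈ Metric.ball (0 : F) ε, Ξ (v, b) ∈ W ∧ Φ (Ξ (v, b)) = v ∧
        κ (Ξ (v, b)) = b) ∧
      Module.finrank ℝ F + Module.finrank ℝ V = m := by
  classical
  set χ := extChartAt 𝓘(ℝ, Eu m) g₀ with hχ
  have hχs : IsOpen χ.source := isOpen_extChartAt_source g₀
  have hgχ : g₀ ∈ χ.source := mem_extChartAt_source g₀
  -- derivative of the chart
  have hLinv : (mfderiv 𝓘(ℝ, Eu m) 𝓘(ℝ, Eu m) χ g₀).IsInvertible :=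
    isInvertible_mfderiv_extChartAt (I := 𝓘(ℝ, Eu m)) hgχ
  obtain ⟨L, hL⟩ := hLinv
  let dΦ : Eu m →L[ℝ] V := mfderiv 𝓘(ℝ, Eu m) 𝓘(ℝ, V) Φ g₀
  have hsurj : Function.Surjective dΦ := hs
  let F : Submodule ℝ (Eu m) := LinearMap.ker (dΦ : Eu m →ₗ[ℝ] V)
  let P : Eu m →L[ℝ] F := F.orthogonalProjectionOnto
  have hP : ∀ f : F, P (f : Eu m) = f := fun f => F.orthogonalProjectionOnto_mem_subspace_eq_self f
  let L' : Eu m ≃L[ℝ] Eu m := L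
  have hL' : ∀ w : Eu m, (mfderiv 𝓘(ℝ, Eu m) 𝓘(ℝ, Eu m) χ g₀) w = L' w := by
    intro w; rw [← hL]; rfl
  let T : Eu m →L[ℝ] F := P.comp (L'.symm : Eu m →L[ℝ] Eu m)
  let κ : X → F := fun g => T (χ g) - T (χ g₀)
  have hκ : ContMDiffOn 𝓘(ℝ, Eu m) 𝓘(ℝ, F) ∞ κ χ.source := by
    have h1 : ContMDiffOn 𝓘(ℝ, Eu m) 𝓘(ℝ, Eu m) ∞ χ χ.source := by
      rw [hχ, extChartAt_source]
      exact contMDiffOn_extChartAt
    have h2 : ContMDiff 𝓘(ℝ, Eu m) 𝓘(ℝ, F) ∞ (fun w : Eu m => T w - T (χ g₀)) := by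
      rw [contMDiff_iff_contDiff]
      exact T.contDiff.sub contDiff_const
    exact h2.comp_contMDiffOn h1
  have hdκ : ∀ w : Eu m, (mfderiv 𝓘(ℝ, Eu m) 𝓘(ℝ, F) κ g₀) w = P w := by
    intro w
    have h1 : MDifferentiableAt 𝓘(ℝ, Eu m) 𝓘(ℝ, Eu m) χ g₀ := by
      have : ContMDiffOn 𝓘(ℝ, Eu m) 𝓘(ℝ, Eu m) ∞ χ χ.source := by
        rw [hχ, extChartAt_source]
        exact contMDiffOn_extChartAt
      exact (this.contMDiffAt (hχs.mem_nhds hgχ)).mdifferentiableAt (by simp)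
    have h2 : HasFDerivAt (fun w : Eu m => T w - T (χ g₀)) T (χ g₀) :=
      T.hasFDerivAt.sub_const _
    have h3 : mfderiv 𝓘(ℝ, Eu m) 𝓘(ℝ, F) κ g₀ =
        T.comp (mfderiv 𝓘(ℝ, Eu m) 𝓘(ℝ, Eu m) χ g₀) := by
      have := mfderiv_comp (I := 𝓘(ℝ, Eu m)) (I' := 𝓘(ℝ, Eu m)) (I'' := 𝓘(ℝ, F)) g₀
        (g := fun w : Eu m => T w - T (χ g₀)) (f := χ) h2.differentiableAt.mdifferentiableAt h1
      rw [mfderiv_eq_fderiv, h2.fderiv] at this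
      exact this
    rw [h3]
    change T ((mfderiv 𝓘(ℝ, Eu m) 𝓘(ℝ, Eu m) χ g₀) w) = P w
    rw [hL']
    change P (L'.symm (L' w)) = P w
    rw [L'.symm_apply_apply]
  -- the combined map
  set O' : Set X := O ∩ χ.source with hO'
  have hO'o : IsOpen O' := hO.inter hχs
  let Ψ : X → V × F := fun g => (Φ g, κ g)
  have hΨ : ContMDiffOn 𝓘(ℝ, Eu m) 𝓘(ℝ, V × F) ∞ Ψ O' :=
    (hΦ.mono inter_subset_left).prodMk_space (hκ.mono inter_subset_right)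
  have hΨd : ∀ w : Eu m, (mfderiv 𝓘(ℝ, Eu m) 𝓘(ℝ, V × F) Ψ g₀) w = (dΦ w, P w) := by
    intro w
    have h1 : MDifferentiableAt 𝓘(ℝ, Eu m) 𝓘(ℝ, V) Φ g₀ :=
      (hΦ.contMDiffAt (hO.mem_nhds hg)).mdifferentiableAt (by simp)
    have h2 : MDifferentiableAt 𝓘(ℝ, Eu m) 𝓘(ℝ, F) κ g₀ :=
      (hκ.contMDiffAt (hχs.mem_nhds hgχ)).mdifferentiableAt (by simp)
    have h3 : MDifferentiableAt 𝓘(ℝ, Eu m) 𝓘(ℝ, V × F) Ψ g₀ :=
      (hΨ.contMDiffAt (hO'o.mem_nhds ⟨hg, hgχ⟩)).mdifferentiableAt (by simp)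
    have hfst : mfderiv 𝓘(ℝ, Eu m) 𝓘(ℝ, V) Φ g₀ =
        (ContinuousLinearMap.fst ℝ V F).comp (mfderiv 𝓘(ℝ, Eu m) 𝓘(ℝ, V × F) Ψ g₀) := by
      have := mfderiv_comp (I := 𝓘(ℝ, Eu m)) (I' := 𝓘(ℝ, V × F)) (I'' := 𝓘(ℝ, V)) g₀
        (g := (Prod.fst : V × F → V)) (f := Ψ)
        (ContinuousLinearMap.fst ℝ V F).differentiableAt.mdifferentiableAt h3
      rw [mfderiv_eq_fderiv (f := (Prod.fst : V × F → V)), fderiv_fst] at this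
      exact this
    have hsnd : mfderiv 𝓘(ℝ, Eu m) 𝓘(ℝ, F) κ g₀ =
        (ContinuousLinearMap.snd ℝ V F).comp (mfderiv 𝓘(ℝ, Eu m) 𝓘(ℝ, V × F) Ψ g₀) := by
      have := mfderiv_comp (I := 𝓘(ℝ, Eu m)) (I' := 𝓘(ℝ, V × F)) (I'' := 𝓘(ℝ, F)) g₀
        (g := (Prod.snd : V × F → F)) (f := Ψ)
        (ContinuousLinearMap.snd ℝ V F).differentiableAt.mdifferentiableAt h3
      rw [mfderiv_eq_fderiv (f := (Prod.snd : V × F → F)), fderiv_snd] at this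
      exact this
    refine Prod.ext ?_ ?_
    · change _ = (mfderiv 𝓘(ℝ, Eu m) 𝓘(ℝ, V) Φ g₀) w
      rw [hfst]; rfl
    · change _ = P w
      rw [← hdκ w, hsnd]; rfl
  have hbij : Function.Bijective (mfderiv 𝓘(ℝ, Eu m) 𝓘(ℝ, V × F) Ψ g₀) := by
    constructor
    · rw [injective_iff_map_eq_zero]
      intro w hw
      have h := hΨd w
      rw [hw] at h
      have h1 : dΦ w = 0 := (congrArg Prod.fst h).symm
      have h2 : P w = 0 := (congrArg Prod.snd h).symm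
      have hwF : w ∈ F := h1
      have h3 := hP ⟨w, hwF⟩
      change P w = _ at h3
      rw [h2] at h3
      exact (congrArg Subtype.val h3).symm
    · rintro ⟨a, f⟩
      obtain ⟨w₀, hw₀⟩ := hsurj a
      refine ⟨w₀ - (P w₀ : Eu m) + (f : Eu m), ?_⟩
      rw [hΨd]
      refine Prod.ext ?_ ?_
      · change dΦ (w₀ - (P w₀ : Eu m) + (f : Eu m)) = a
        have hf : dΦ (f : Eu m) = 0 := f.2
        have hPw : dΦ (P w₀ : Eu m) = 0 := (P w₀).2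
        rw [map_add, map_sub, hf, hPw, hw₀]
        simp
      · change P (w₀ - (P w₀ : Eu m) + (f : Eu m)) = f
        rw [map_add, map_sub, hP, hP]
        simp
  obtain ⟨W, W2, Ξ, hW, hgW, hWO, hW2, hΞ, hm1, hm2, hi1, hi2⟩ :=
    Helper94.MIFT.exists_localInverse (Φ := Ψ) hO'o ⟨hg, hgχ⟩ hΨ hbij
  have hκ0 : κ g₀ = 0 := sub_self _
  have hΨ0 : (Φ g₀, (0 : F)) ∈ W2 := by
    have := hm1 hgW
    change (Φ g₀, κ g₀) ∈ W2 at this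
    rwa [hκ0] at this
  obtain ⟨U, B', hU, hB', hgU, h0B', hUB⟩ := isOpen_prod_iff.mp hW2 _ _ hΨ0
  obtain ⟨ε, hε, hεB⟩ := Metric.isOpen_iff.mp hB' 0 h0B'
  have hprod : U ×ˢ Metric.ball (0 : F) ε ⊆ W2 := by
    rintro ⟨v, b⟩ ⟨hv, hb⟩
    exact hUB ⟨hv, hεB hb⟩
  have hΨW : ContinuousOn Ψ W := (hΨ.mono hWO).continuousOn
  refine ⟨F, κ, Ξ, W ∩ Ψ ⁻¹' (U ×ˢ Metric.ball (0 : F) ε), U, ε, ?_, ?_, ?_, hU, hgU, hε, hκ0,
    ?_, ?_, ?_, ?_, ?_⟩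
  · exact hΨW.isOpen_inter_preimage hW (hU.prod Metric.isOpen_ball)
  · refine ⟨hgW, hgU, ?_⟩
    rw [show (Ψ g₀).2 = κ g₀ from rfl, hκ0]
    exact Metric.mem_ball_self hε
  · intro g hg'
    exact (hWO hg'.1).1
  · exact hκ.mono (fun g hg' => (hWO hg'.1).2)
  · exact hΞ.mono hprod
  · rintro g ⟨hgW', hgU', hgB'⟩
    exact ⟨hgU', hgB', hi1 g hgW'⟩
  · intro v hv b hb
    have hvb : (v, b) ∈ W2 := hprod ⟨hv, hb⟩
    have h1 := hi2 _ hvb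
    have h2 : Φ (Ξ (v, b)) = v := congrArg Prod.fst h1
    have h3 : κ (Ξ (v, b)) = b := congrArg Prod.snd h1
    refine ⟨⟨hm2 hvb, ?_⟩, h2, h3⟩
    change Ψ (Ξ (v, b)) ∈ U ×ˢ Metric.ball (0 : F) ε
    rw [h1]
    exact ⟨hv, hb⟩
  · have h1 := LinearMap.finrank_range_add_finrank_ker (dΦ : Eu m →ₗ[ℝ] V)
    have h2 : LinearMap.range (dΦ : Eu m →ₗ[ℝ] V) = ⊤ := LinearMap.range_eq_top.mpr hsurj
    rw [h2, finrank_top] at h1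
    have h3 : Module.finrank ℝ (Eu m) = m := by simp
    rw [h3] at h1
    rw [add_comm]
    exact h1

end H91PG

end
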