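import Pool.Agent.Helper91.PG.NF

open scoped Manifold ContDiff Topology
open Set

noncomputable section

namespace H91PG

section nform

variable {m : ℕ} {X : Type*} [TopologicalSpace X] [ChartedSpace (Eu m) X]
variable {V : Type} [NormedAddCommGroup V] [NormedSpace ℝ V]

/-- Normal form of a submersion to a vector space near a point. -/
structure NForm (Φ : X → V) (O : Set X) (g₀ : X) where
  F : Submodule ℝ (Eu m)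
  κ : X → F
  Ξ : V × F → X
  W : Set X
  U : Set V
  ε : ℝ
  hW : IsOpen W
  g₀W : g₀ ∈ W
  WO : W ⊆ O
  hU : IsOpen U
  g₀U : Φ g₀ ∈ U
  hε : 0 < ε
  κ₀ : κ g₀ = 0
  hκ : ContMDiffOn 𝓘(ℝ, Eu m) 𝓘(ℝ, F) ∞ κ W
  hΦ : ContMDiffOn 𝓘(ℝ, Eu m) 𝓘(ℝ, V) ∞ Φ W
  hΞ : Sm m Ξ (U ×ˢ Metric.ball (0 : F) ε)
  toU : ∀ g ∈ W, Φ g ∈ U
  toB : ∀ g ∈ W, κ g ∈ Metric.ball (0 : F) ε
  left : ∀ g ∈ W, Ξ (Φ g, κ g) = g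
  mapW : ∀ v ∈ U, ∀ b ∈ Metric.ball (0 : F) ε, Ξ (v, b) ∈ W
  right1 : ∀ v ∈ U, ∀ b ∈ Metric.ball (0 : F) ε, Φ (Ξ (v, b)) = v
  right2 : ∀ v ∈ U, ∀ b ∈ Metric.ball (0 : F) ε, κ (Ξ (v, b)) = b
  dim : Module.finrank ℝ F + Module.finrank ℝ V = m

theorem exists_nform [IsManifold 𝓘(ℝ, Eu m) ∞ X] [FiniteDimensional ℝ V] {Φ : X → V} {O : Set X}
    (hO : IsOpen O) {g₀ : X} (hg : g₀ ∈ O)
    (hΦ : ContMDiffOn 𝓘(ℝ, Eu m) 𝓘(ℝ, V) ∞ Φ O)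
    (hs : Function.Surjective (mfderiv 𝓘(ℝ, Eu m) 𝓘(ℝ, V) Φ g₀)) :
    Nonempty (NForm (m := m) Φ O g₀) := by
  obtain ⟨F, κ, Ξ, W, U, ε, h1, h2, h3, h4, h5, h6, h7, h8, h9, h10, h11, h12⟩ :=
    exists_nf hO hg hΦ hs
  exact ⟨⟨F, κ, Ξ, W, U, ε, h1, h2, h3, h4, h5, h6, h7, h8, hΦ.mono h3, h9,
    fun g hg => (h10 g hg).1, fun g hg => (h10 g hg).2.1, fun g hg => (h10 g hg).2.2,
    fun v hv b hb => (h11 v hv b hb).1, fun v hv b hb => (h11 v hv b hb).2.1,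
    fun v hv b hb => (h11 v hv b hb).2.2, h12⟩⟩

namespace NForm

variable {Φ : X → V} {O : Set X} {g₀ : X} (N : NForm (m := m) Φ O g₀)

/-- The domain of the parametrization. -/
def D : Set (V × N.F) := N.U ×ˢ Metric.ball (0 : N.F) N.ε

lemma hD : IsOpen N.D := N.hU.prod Metric.isOpen_ball

lemma zero_mem : (0 : N.F) ∈ Metric.ball (0 : N.F) N.ε := Metric.mem_ball_self N.hε

lemma Ξ₀ : N.Ξ (Φ g₀, 0) = g₀ := by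
  have := N.left g₀ N.g₀W
  rwa [N.κ₀] at this

lemma smooth : Sm m N.Ξ N.D := N.hΞ

lemma mdiffΞ {p : V × N.F} (hp : p ∈ N.D) :
    MDifferentiableAt 𝓘(ℝ, V × N.F) 𝓘(ℝ, Eu m) N.Ξ p := N.smooth.mdiff N.hD hp

lemma mdiffΦ {g : X} (hg : g ∈ N.W) : MDifferentiableAt 𝓘(ℝ, Eu m) 𝓘(ℝ, V) Φ g :=
  (N.hΦ.contMDiffAt (N.hW.mem_nhds hg)).mdifferentiableAt (by simp)

lemma mdiffκ {g : X} (hg : g ∈ N.W) : MDifferentiableAt 𝓘(ℝ, Eu m) 𝓘(ℝ, N.F) N.κ g :=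
  (N.hκ.contMDiffAt (N.hW.mem_nhds hg)).mdifferentiableAt (by simp)

lemma deriv_right {p : V × N.F} (hp : p ∈ N.D) (a : V × N.F) :
    (mfderiv 𝓘(ℝ, Eu m) 𝓘(ℝ, V) Φ (N.Ξ p)) ((mfderiv 𝓘(ℝ, V × N.F) 𝓘(ℝ, Eu m) N.Ξ p) a)
      = a.1 := by
  have hW : N.Ξ p ∈ N.W := N.mapW p.1 hp.1 p.2 hp.2
  have h1 := mfderiv_comp (I := 𝓘(ℝ, V × N.F)) (I' := 𝓘(ℝ, Eu m)) (I'' := 𝓘(ℝ, V)) p
    (N.mdiffΦ hW) (N.mdiffΞ hp)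
  have h2 : (Φ ∘ N.Ξ) =ᶠ[𝓝 p] Prod.fst := by
    filter_upwards [N.hD.mem_nhds hp] with q hq
    exact N.right1 q.1 hq.1 q.2 hq.2
  rw [h2.mfderiv_eq, mfderiv_eq_fderiv, fderiv_fst] at h1
  exact (DFunLike.congr_fun h1 a).symm

lemma surj {g : X} (hg : g ∈ N.W) :
    Function.Surjective (mfderiv 𝓘(ℝ, Eu m) 𝓘(ℝ, V) Φ g) := by
  intro a
  have hp : ((Φ g, N.κ g) : V × N.F) ∈ N.D := ⟨N.toU g hg, N.toB g hg⟩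
  have h := N.deriv_right hp (a, 0)
  have hl := N.left g hg
  revert h
  generalize (mfderiv 𝓘(ℝ, V × N.F) 𝓘(ℝ, Eu m) N.Ξ (Φ g, N.κ g)) (a, 0) = w
  intro h
  revert w
  rw [hl]
  intro w h
  exact ⟨w, h⟩

lemma deriv_left {g : X} (hg : g ∈ N.W) (w : TangentSpace 𝓘(ℝ, Eu m) g) :
    ((mfderiv 𝓘(ℝ, V × N.F) 𝓘(ℝ, Eu m) N.Ξ (Φ g, N.κ g))
      (((mfderiv 𝓘(ℝ, Eu m) 𝓘(ℝ, V) Φ g) w, (mfderiv 𝓘(ℝ, Eu m) 𝓘(ℝ, N.F) N.κ g) w) :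
        V × N.F) : Eu m) = w := by
  have hp : ((Φ g, N.κ g) : V × N.F) ∈ N.D := ⟨N.toU g hg, N.toB g hg⟩
  let Ψ : X → V × N.F := fun g => (Φ g, N.κ g)
  have hΨ : ContMDiffOn 𝓘(ℝ, Eu m) 𝓘(ℝ, V × N.F) ∞ Ψ N.W := N.hΦ.prodMk_space N.hκ
  have hΨd : MDifferentiableAt 𝓘(ℝ, Eu m) 𝓘(ℝ, V × N.F) Ψ g :=
    (hΨ.contMDiffAt (N.hW.mem_nhds hg)).mdifferentiableAt (by simp)
  have h1 := mfderiv_comp (I := 𝓘(ℝ, Eu m)) (I' := 𝓘(ℝ, V × N.F)) (I'' := 𝓘(ℝ, Eu m)) g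
    (g := N.Ξ) (f := Ψ) (N.mdiffΞ hp) hΨd
  have h2 : (N.Ξ ∘ Ψ) =ᶠ[𝓝 g] id := by
    filter_upwards [N.hW.mem_nhds hg] with q hq
    exact N.left q hq
  rw [h2.mfderiv_eq, mfderiv_id] at h1
  have h3 := DFunLike.congr_fun h1 w
  have hfst : mfderiv 𝓘(ℝ, Eu m) 𝓘(ℝ, V) Φ g =
      (ContinuousLinearMap.fst ℝ V N.F).comp (mfderiv 𝓘(ℝ, Eu m) 𝓘(ℝ, V × N.F) Ψ g) := by
    have := mfderiv_comp (I := 𝓘(ℝ, Eu m)) (I' := 𝓘(ℝ, V × N.F)) (I'' := 𝓘(ℝ, V)) g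
      (g := (Prod.fst : V × N.F → V)) (f := Ψ)
      (ContinuousLinearMap.fst ℝ V N.F).differentiableAt.mdifferentiableAt hΨd
    rw [mfderiv_eq_fderiv (f := (Prod.fst : V × N.F → V)), fderiv_fst] at this
    exact this
  have hsnd : mfderiv 𝓘(ℝ, Eu m) 𝓘(ℝ, N.F) N.κ g =
      (ContinuousLinearMap.snd ℝ V N.F).comp (mfderiv 𝓘(ℝ, Eu m) 𝓘(ℝ, V × N.F) Ψ g) := by
    have := mfderiv_comp (I := 𝓘(ℝ, Eu m)) (I' := 𝓘(ℝ, V × N.F)) (I'' := 𝓘(ℝ, N.F)) g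
      (g := (Prod.snd : V × N.F → N.F)) (f := Ψ)
      (ContinuousLinearMap.snd ℝ V N.F).differentiableAt.mdifferentiableAt hΨd
    rw [mfderiv_eq_fderiv (f := (Prod.snd : V × N.F → N.F)), fderiv_snd] at this
    exact this
  have h4 : ((((mfderiv 𝓘(ℝ, Eu m) 𝓘(ℝ, V) Φ g) w,
      (mfderiv 𝓘(ℝ, Eu m) 𝓘(ℝ, N.F) N.κ g) w)) : V × N.F) =
      (mfderiv 𝓘(ℝ, Eu m) 𝓘(ℝ, V × N.F) Ψ g) w := by
    rw [hfst, hsnd]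
    rfl
  rw [h4]
  exact h3.symm

end NForm

end nform

set_option linter.unusedSectionVars false

section chart

variable {m d : ℕ} {X Y : Type*} [TopologicalSpace X] [ChartedSpace (Eu m) X]
  [TopologicalSpace Y] [ChartedSpace (Eu d) Y] [IsManifold 𝓘(ℝ, Eu d) ∞ Y]

/-- A map read in the chart at `y` of the target. -/
def rd (y : Y) (q : X → Y) : X → Eu d := fun g => extChartAt 𝓘(ℝ, Eu d) y (q g)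

/-- The chart source at `y`. -/
def src' (y : Y) : Set Y := (extChartAt 𝓘(ℝ, Eu d) y).source

lemma isOpen_src' (y : Y) : IsOpen (src' (d := d) y) := isOpen_extChartAt_source y

lemma rd_smooth (y : Y) {q : X → Y} (hq : ContMDiff 𝓘(ℝ, Eu m) 𝓘(ℝ, Eu d) ∞ q) :
    ContMDiffOn 𝓘(ℝ, Eu m) 𝓘(ℝ, Eu d) ∞ (rd (d := d) y q) (q ⁻¹' src' (d := d) y) := by
  have h1 : ContMDiffOn 𝓘(ℝ, Eu d) 𝓘(ℝ, Eu d) ∞ (extChartAt 𝓘(ℝ, Eu d) y) (src' (d := d) y) := by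
    rw [src', extChartAt_source]
    exact contMDiffOn_extChartAt
  exact h1.comp hq.contMDiffOn (fun g hg => hg)

lemma rd_deriv (y : Y) {q : X → Y} (hq : ContMDiff 𝓘(ℝ, Eu m) 𝓘(ℝ, Eu d) ∞ q) {g : X}
    (hg : q g ∈ src' (d := d) y) :
    mfderiv 𝓘(ℝ, Eu m) 𝓘(ℝ, Eu d) (rd (d := d) y q) g =
      (mfderiv 𝓘(ℝ, Eu d) 𝓘(ℝ, Eu d) (extChartAt 𝓘(ℝ, Eu d) y) (q g)).comp
        (mfderiv 𝓘(ℝ, Eu m) 𝓘(ℝ, Eu d) q g) := by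
  refine mfderiv_comp (I := 𝓘(ℝ, Eu m)) (I' := 𝓘(ℝ, Eu d)) (I'' := 𝓘(ℝ, Eu d)) g
    (g := extChartAt 𝓘(ℝ, Eu d) y) (f := q) ?_ ?_
  · have h1 : ContMDiffOn 𝓘(ℝ, Eu d) 𝓘(ℝ, Eu d) ∞ (extChartAt 𝓘(ℝ, Eu d) y)
        (src' (d := d) y) := by
      rw [src', extChartAt_source]
      exact contMDiffOn_extChartAt
    exact (h1.contMDiffAt ((isOpen_src' y).mem_nhds hg)).mdifferentiableAt (by simp)
  · exact hq.mdifferentiableAt (by simp)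

lemma chart_bij (y : Y) {z : Y} (hz : z ∈ src' (d := d) y) :
    Function.Bijective (mfderiv 𝓘(ℝ, Eu d) 𝓘(ℝ, Eu d) (extChartAt 𝓘(ℝ, Eu d) y) z) := by
  obtain ⟨L, hL⟩ := isInvertible_mfderiv_extChartAt (I := 𝓘(ℝ, Eu d)) hz
  rw [← hL]
  exact L.bijective

lemma chart_inj (y : Y) : InjOn (extChartAt 𝓘(ℝ, Eu d) y) (src' (d := d) y) :=
  (extChartAt 𝓘(ℝ, Eu d) y).injOn

lemma mem_src' (y : Y) : y ∈ src' (d := d) y := mem_extChartAt_source y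

lemma rd_surj (y : Y) {q : X → Y} (hq : ContMDiff 𝓘(ℝ, Eu m) 𝓘(ℝ, Eu d) ∞ q) {g : X}
    (hg : q g ∈ src' (d := d) y)
    (hs : Function.Surjective (mfderiv 𝓘(ℝ, Eu m) 𝓘(ℝ, Eu d) q g)) :
    Function.Surjective (mfderiv 𝓘(ℝ, Eu m) 𝓘(ℝ, Eu d) (rd (d := d) y q) g) := by
  rw [rd_deriv y hq hg]
  exact (chart_bij y hg).2.comp hs

lemma rd_ker (y : Y) {q : X → Y} (hq : ContMDiff 𝓘(ℝ, Eu m) 𝓘(ℝ, Eu d) ∞ q) {g : X}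
    (hg : q g ∈ src' (d := d) y) (w : TangentSpace 𝓘(ℝ, Eu m) g) :
    (mfderiv 𝓘(ℝ, Eu m) 𝓘(ℝ, Eu d) (rd (d := d) y q) g) w = 0 ↔
      (mfderiv 𝓘(ℝ, Eu m) 𝓘(ℝ, Eu d) q g) w = 0 := by
  rw [rd_deriv y hq hg]
  constructor
  · intro h
    apply (chart_bij y hg).1
    rw [map_zero]
    exact h
  · intro h
    change (mfderiv 𝓘(ℝ, Eu d) 𝓘(ℝ, Eu d) (extChartAt 𝓘(ℝ, Eu d) y) (q g))
      ((mfderiv 𝓘(ℝ, Eu m) 𝓘(ℝ, Eu d) q g) w) = 0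
    rw [h, map_zero]

end chart

end H91PG

end
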